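import Pool.Agent.Lib.MP_4fcc12_ag.AF.StmtMain

/-!
# The morphism of quotients induced by associated forms is a closed immersion

Outline of the proof (`N = n (k - 1)`, `k = d - 1`). In the coordinates
`z = (coefficients of ∏ (s - y_j))` of the quotient `(ℙ¹)^{n-1} → ℙ^{n-1}` a tuple `f` has the Dixon
kernel `Φ_f(x, y) = det (f_i (X_k)) / ∏ (x_j - y_j)`, `X_k = (y_1, …, y_k, x_{k+1}, …)`. Let `M(f)` be
its matrix of coefficients. For every functional `G` on forms of degree `N` vanishing on `(f)_N` the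
matrix `B(G) = (G (T (y^(α+β))))` (`T` = alternation, with values in forms of degree `N`) satisfies
`M(f) B(G)ᵀ = c G(Jac f) Id` (module `K1`). So `J = det B` is a form on `ℂ[e]_N` without zeros on
associated forms, `J ∘ Ψ` is `SL_n`-invariant, and the entries of `M(f)`, hence the Pluecker
coordinates of the span of `f` (modules `BAS`, `SPAN`, `PLU`), are regular functions of the
associated form of `f` on `{J ≠ 0}`. So all invariant regular functions on `Z` are quotients
`(F ∘ Ψ) / (J ∘ Ψ)^s` (modules `MEM`, `FIN`, with the Reynolds operator `REY`).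
-/

open MvPolynomial AlgebraicGeometry CategoryTheory
open Pool.Agent.Lib.MP_4fcc12_ag Pool.Agent.Lib.MP_4fcc12_ag.AF
open Pool.Agent.Lib.MP_4fcc12_ag.AFS Pool.Agent.Lib.MP_4fcc12_ag.Quot

namespace Pool.Agent.Results.MP_4fcc12_ag.AssociatedFormClosedImmersion

/-- For all `n ≥ 2`, `k = d - 1 ≥ 2`, `N = n (k - 1)`: the numbers `μ_i` of a tuple with nonzero
resultant are well defined; `P ↦ P ∘ Ψ` is a homomorphism `ψ` from invariants to regular functions on
the variety of tuples; associated forms are semistable; the morphism from tuples to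
`ℙ(ℂ[e]_N)^{ss} // SL_n` that `ψ` gives factors through a unique morphism `φ` from `Z_n^k // SL_n`; and
`φ` is a closed immersion into the affine open subset `{J ≠ 0}` for some homogeneous invariant `J` of
degree `(n - 1)! k^(n - 1)`. -/
theorem result (n k : ℕ) (hn : 2 ≤ n) (hk : 2 ≤ k) :
    (∀ F ∈ UU n k, ∀ i : Mon n (n * (k - 1)), ∃! c : ℂ,
      monomial i.1 1 - C c * jac F ∈ idl F) ∧
    ∃ ψ : Hm n k, IsComp ψ ∧
      ∃ (h : NoBase (sec ψ)) (φ : quotZZ n k ⟶ PSS n (n * (k - 1))),
        (∀ φ', projZZ n k ≫ φ' = toPSS (sec ψ) h ↔ φ' = φ) ∧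
        ∃ J ∈ gr n (n * (k - 1)) ((n - 1).factorial * k ^ (n - 1)), ClosedInto φ (DJ J) := by
  refine ⟨fun F hF i => (mu_unique hn hk hF i.1 i.2).1, ?_⟩
  obtain ⟨ψ, h, h1, φ, h2, h3⟩ := main_inst hn hk
  exact ⟨ψ, h1, h, φ, h2, h3⟩

end Pool.Agent.Results.MP_4fcc12_ag.AssociatedFormClosedImmersion
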