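import Pool.Agent.Lib.MP_4fcc12_ag.QuotMain
import Pool.Agent.Lib.MP_4fcc12_ag.ResFacts
import Pool.Agent.Lib.MP_4fcc12_ag.PtOrd
import Pool.Agent.Lib.MP_4fcc12_ag.Res
import Pool.Agent.Lib.MP_4fcc12_ag.AlgMain
import Pool.Agent.Lib.MP_4fcc12_ag.StabFinite
import Pool.Agent.Lib.MP_4fcc12_ag.OrbitFun
import Pool.Agent.Lib.MP_4fcc12_ag.ValCrit

/-!
# The morphism of quotients induced by the gradient is a closed immersion

Outline of the proof. Let `R` be the ring of invariants of nondegenerate forms (the coordinate ring
of `ℙX_n^d // SL_n`) and `S ⊆ R` the ring of pull backs of invariants of tuples along the gradient.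

* `R` is integral over `S`: if all elements of `S` have values in a valuation ring `O` at a form
  `f`, then (Reynolds operator, module `ValCrit`) the gradient of `f` can be moved over an
  extension of `O` to an integral tuple with invertible resultant, and then (module `Semistable`)
  the form `f` itself can be moved to an integral form with invertible discriminant.
* `S` separates the orbits of nondegenerate forms: orbits of gradients are closed (modules
  `Valuative`, `Closed`) and a gradient determines the form up to a block torus (`lemmaW`), after
  bringing the form in block form (module `AlgMain`).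
* `𝔫 ⊆ 𝔪 R + 𝔫^2` for the maximal ideals: the leading form at `f₀` of an invariant of forms lifts
  to an invariant of tuples. Here one uses the tangent space of the orbit of `∇ f₀`, a matching
  argument (`HallMatch`) to get an element invariant under the block torus, the averaging over the
  finite stabilizer, and the extension of functions from the closed orbit (`OrbitFun`, `LeadForm`).
* Nakayama's lemma gives `S = R`.
-/

open AlgebraicGeometry CategoryTheory
open Pool.Agent.Lib.MP_4fcc12_ag
open Pool.Agent.Lib.MP_4fcc12_ag.Quot

namespace Pool.Agent.Results.MP_4fcc12_ag.GradientClosedImmersion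

/-- All modules together: every invariant of nondegenerate forms is the pull back of an invariant
of tuples along the gradient. -/
theorem key : StatementKEY :=
  statementKEY_of statementALG statementORB (statementEK5 statementFR) statementTAN statementHALL
    statementGF (statementINT statementVC) statementCTR statementFG statementORD statementPT
    statementRDF statementKRULL statementNAK

/-- For all `n ≥ 2` and `d ≥ 3` the morphism `ℙX_n^d // SL_n → Z_n^{d-1} // SL_n` induced by `ℙ∇`
is a closed immersion. -/
theorem result (n d : ℕ) (hn : 2 ≤ n) (hd : 3 ≤ d) : IsClosedImmersion (gradBar n hd) := by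
  obtain ⟨Δ, r₁, r₂, h1, h2⟩ := res_exists n (d - 1) hn (by omega)
  have h : RD n d Δ r₁ r₂ := ⟨hn, hd, h1, h2⟩
  exact IsClosedImmersion.spec_of_surjective (gradCat n hd) (gradStar_surjective key h hd)

end Pool.Agent.Results.MP_4fcc12_ag.GradientClosedImmersion
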